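import Pool.Agent.H82.WP.Final

/-!
# Waring's problem with 2k+1 values of one and the same polynomial, for almost every polynomial of degree k
-/

set_option autoImplicit false

open MeasureTheory

private theorem null_of_dim {n : ℕ} (S : Set (Fin n → ℝ)) (h : dimH S < ENNReal.ofReal (n : ℝ)) :
    volume S = 0 := by
  have h1 : dimH S < ((n : NNReal) : ENNReal) := by
    refine lt_of_lt_of_eq h ?_
    simp
  have h0 := hausdorffMeasure_of_dimH_lt h1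
  have hv : (Measure.hausdorffMeasure ((n : NNReal) : ℝ) : Measure (Fin n → ℝ)) = volume := by
    have := hausdorffMeasure_pi_real (ι := Fin n)
    simpa using this
  rwa [hv] at h0

theorem Pool.Agent.Results.MP_efcac8_nt.AlmostAllPolynomials.result (k : ℕ) (hk : 2 ≤ k) :
    ∃ c : ℝ, 0 < c ∧ c < 1 ∧ ∃ E : Set (Fin (k - 1) → ℝ),
      dimH E ≤ ENNReal.ofReal ((k : ℝ) - 1 - c) ∧ volume E = 0 ∧
      ∀ a : Fin (k - 1) → ℝ, a ∉ E → ∀ s : ℕ, 2 * k + 1 ≤ s →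
        ∃ T : ℝ, ∀ tau : ℝ, T ≤ tau → ∃ x : Fin s → ℕ,
          |∑ i, ((x i : ℝ) ^ k + ∑ j : Fin (k - 1), a j * (x i : ℝ) ^ ((j : ℕ) + 1)) - tau| < tau ^ (-c) := by
  obtain ⟨c, hc, hc1, hdim⟩ := Pool.H82.WP.dim_exc k hk
  refine ⟨c, hc, hc1, Pool.H82.WP.Exc k c, hdim, ?_, ?_⟩
  · have hkR : (2 : ℝ) ≤ k := by exact_mod_cast hk
    have hk1 : (k : ℝ) - 1 = ((k - 1 : ℕ) : ℝ) := by
      rw [Nat.cast_sub (by omega)]
      simp
    apply null_of_dim
    refine lt_of_le_of_lt hdim ?_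
    rw [← hk1, ENNReal.ofReal_lt_ofReal_iff (by linarith)]
    linarith
  · intro a ha s hs
    have h1 : ∀ s : ℕ, 2 * k + 1 ≤ s → ∃ T0 : ℝ, ∀ tau : ℝ, T0 ≤ tau → ∃ w : Fin s → ℕ,
        |∑ i, Pool.H82.WP.F k a (w i) - tau| < tau ^ (-c) := by
      by_contra h
      exact ha h
    exact h1 s hs
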