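import Pool.Agent.H28.WF.Alm

/-!
# Waring's problem over F_q[t] with 2k+1 summands, uniformly in the degree

The analogue of the question `G(k) ≤ 2 k + 1` for polynomials over a finite field `F` with
characteristic `> k` and with at least `q₀(k)` elements, for all `k ≥ 3`: every polynomial `N` with
`deg N ≤ k n` is a sum of `2 k + 1` k-th powers of polynomials of degree `n`; the asymptotic
formula for the number of representations (at least `2 k + 1` summands, arbitrary nonzero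
coefficients); the mean value with `2 k` summands (any finite field of characteristic `> k`); and
`k + 1` summands for almost all `N`.
-/

set_option autoImplicit false

open Polynomial

theorem Pool.Agent.Results.MP_efcac8_nt.FunctionFieldWaring.result (k : ℕ) (hk : 3 ≤ k) :
    (∃ q₀ : ℕ, ∀ (F : Type) [Field F] [Fintype F], q₀ ≤ Fintype.card F → k < ringChar F →
      ∀ (n : ℕ) (N : F[X]), N.natDegree ≤ k * n →
      ∃ x : Fin (2 * k + 1) → F[X], (∀ i, (x i).degree = (n : WithBot ℕ)) ∧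
        ∑ i, x i ^ k = N) ∧
    (∀ δ : ℝ, 0 < δ → ∃ q₀ : ℕ, ∀ (F : Type) [Field F] [Fintype F], q₀ ≤ Fintype.card F →
      k < ringChar F → ∀ s : ℕ, 2 * k + 1 ≤ s → ∀ ε : Fin s → F, (∀ i, ε i ≠ 0) →
      ∀ (n : ℕ) (N : F[X]), N.natDegree ≤ k * n → N.coeff (k * n) = ∑ i, ε i →
      |(Nat.card {y : Fin s → F[X] // (∀ i, (y i).Monic ∧ (y i).natDegree = n) ∧
        ∑ i, C (ε i) * y i ^ k = N} : ℝ) - (Fintype.card F : ℝ) ^ ((s - k) * n)| ≤
          δ * (Fintype.card F : ℝ) ^ ((s - k) * n)) ∧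
    (∃ B : ℕ, ∀ (F : Type) [Field F] [Fintype F], k < ringChar F →
      ∀ ε : Fin (2 * k) → F, (∀ i, ε i ≠ 0) → ∀ (n : ℕ) (N : F[X]),
      Nat.card {y : Fin (2 * k) → F[X] // (∀ i, (y i).Monic ∧ (y i).natDegree = n) ∧
        ∑ i, C (ε i) * y i ^ k = N} ≤ B ^ n * Fintype.card F ^ (k * n)) ∧
    (∀ δ : ℝ, 0 < δ → ∃ q₀ : ℕ, ∀ (F : Type) [Field F] [Fintype F], q₀ ≤ Fintype.card F →
      k < ringChar F → ∀ n : ℕ, (Nat.card {N : F[X] // N.natDegree ≤ k * n ∧
        ¬ ∃ x : Fin (k + 1) → F[X], (∀ i, (x i).degree = (n : WithBot ℕ)) ∧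
          ∑ i, x i ^ k = N} : ℝ) ≤ δ * (Fintype.card F : ℝ) ^ (k * n + 1)) :=
  ⟨H28WF.wfB k hk, fun δ hδ => H28WF.wfA k hk δ hδ, H28WF.wfC' k hk,
    fun δ hδ => H28WF.almD k hk δ hδ⟩
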