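import Pool.Agent.H7.PP.Final

/-!
# Waring's problem with most summands genuine k-th powers and the others slightly perturbed
-/

set_option autoImplicit false

open MeasureTheory Filter

theorem Pool.Agent.Results.MP_efcac8_nt.PerturbedPowers.result (k u g : ℕ) (hk : 2 ≤ k) (κ om om' : ℝ)
    (h1 : (k : ℝ) * (1 - 1 / (k : ℝ)) ^ u < om) (h2 : om' < k)
    (h3 : (k : ℝ) * (1 - 1 / (k : ℝ)) ^ u < g * κ) (Z : Set ℕ)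
    (hZ : ∀ᶠ Q : ℕ in atTop, (Q : ℝ) ^ κ ≤ ({x : ℕ | x ∈ Z ∧ Q < x ∧ x ≤ 2 * Q}.ncard : ℝ)) (R : ℕ → ℕ)
    (hR : ∀ᶠ x : ℕ in atTop, x ∈ Z → (x : ℝ) ^ om ≤ R x ∧ (R x : ℝ) ≤ (x : ℝ) ^ om') :
    ∀ᵐ r : (∀ x : ℕ, Fin (R x + 1)) ∂(Measure.infinitePi fun x : ℕ =>
        (PMF.uniformOfFintype (Fin (R x + 1))).toMeasure),
      ∃ N : ℕ, ∀ n : ℕ, N ≤ n → ∃ (y : Fin u → ℕ) (x : Fin g → ℕ), Function.Injective x ∧ (∀ i, x i ∈ Z) ∧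
        n = ∑ i, y i ^ k + ∑ i, (x i ^ k + (r (x i) : ℕ)) :=
  Pool.H7.PP.final k u g hk κ om om' h1 h2 h3 Z hZ R hR
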