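import Pool.Agent.H12.TL.Iff

/-!
# 2k+1 genuine k-th powers and a multiple of q, for almost every modulus q

Let `k >= 3` and `lam (1 - (1-1/k)^k) > 1` (`lam = 1.582` is admissible for every `k`, as `(1-1/k)^k < 1/e`). Then `k` is not
one of the exponents `4, 8, 16, ...` excluded in the problem if and only if for almost every modulus `q` (all but `C Q^(1-c)` of
the `q <= Q`) every integer `n >= q^lam` is `x_1^k + ... + x_(2k+1)^k + q m` with positive integers `x_i`, an integer `m >= 0`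
and `x_1^k + ... + x_(2k+1)^k <= q^lam`.
-/

set_option autoImplicit false

theorem Pool.Agent.Results.MP_efcac8_nt.ThinLinearTerm.result (k : ℕ) (hk : 3 ≤ k) (lam : ℝ)
    (hlam : 1 < lam * (1 - (1 - 1 / (k : ℝ)) ^ k)) :
    (∃ C c : ℝ, 0 < c ∧ ∀ Q : ℕ, 1 ≤ Q →
      (({q : ℕ | 1 ≤ q ∧ q ≤ Q ∧ ¬ ∀ n : ℕ, (q : ℝ) ^ lam ≤ n → ∃ (x : Fin (2 * k + 1) → ℕ) (m : ℕ),
        (∀ i, 0 < x i) ∧ ((∑ i, x i ^ k : ℕ) : ℝ) ≤ (q : ℝ) ^ lam ∧ ∑ i, x i ^ k + q * m = n}).ncard : ℝ)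
        ≤ C * (Q : ℝ) ^ (1 - c)) ↔ ¬ ∃ a : ℕ, 2 ≤ a ∧ k = 2 ^ a :=
  Pool.Agent.H12.TL.final_iff k hk lam hlam
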